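import Pool.Agent.W819.NC.Stm

/-!
Project NC: the cost of the annulus inside of `2 x` under the law weighted by `t ^ N`.
-/

set_option autoImplicit false

namespace Pool.Agent.W933.NC

open H974 Finset Pool.Agent.W819.EN Pool.Agent.W819.NC

lemma bx_mono (v : Vtx) {k l : ℤ} (h : k ≤ l) : bx v k ⊆ bx v l := by
  unfold bx
  exact RE_subset (by omega) (by omega) (by omega) (by omega)

lemma locN {N : NT} (hG : Geo N) {v : Vtx} {r R : ℕ} (h : r ≤ R)
    {S : Finset Edg} (hS : an v r R ⊆ S) (F : Finset Edg) : N F v r R = N (F ∩ S) v r R := by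
  rw [hG.loc F v r R h, hG.loc (F ∩ S) v r R h]
  congr 1
  ext x
  simp only [Finset.mem_inter]
  constructor
  · rintro ⟨h1, h2⟩
    exact ⟨⟨h1, hS h2⟩, h2⟩
  · rintro ⟨⟨h1, -⟩, h2⟩
    exact ⟨h1, h2⟩

lemma locW {N : NT} {W : WT} {K : KT} (hS : Sys N W K) {v : Vtx} {b : ℕ} (h : 1 ≤ b)
    {S : Finset Edg} (hs : an v b (2 * b) ⊆ S) (F : Finset Edg) : W F v b = W (F ∩ S) v b := by
  rw [hS.wloc F v b h, hS.wloc (F ∩ S) v b h]
  congr 1
  ext x
  simp only [Finset.mem_inter]
  constructor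
  · rintro ⟨h1, h2⟩
    exact ⟨⟨h1, hs h2⟩, h2⟩
  · rintro ⟨⟨h1, -⟩, h2⟩
    exact ⟨h1, h2⟩

lemma an_sub_bx (v : Vtx) (r R : ℕ) : an v r R ⊆ bx v R := sdiff_subset

lemma amgm (a b : ℝ) : a * b ≤ 1 / 2 * a ^ 2 + 1 / 2 * b ^ 2 := by nlinarith [sq_nonneg (a - b)]

/-- moments of the inner cost -/
lemma mom {N : NT} {W : WT} {K : KT} (h : Sys N W K) (ha : AMom N) (s : ℝ) (hs : 1 ≤ s)
    (L : ℕ) : ∃ C : ℝ, 0 < C ∧ ∀ (v : Vtx) (y x : ℕ) (S : Finset Edg), 1 ≤ y → y ≤ x →
      x ≤ L * y → bx v ((2 * x : ℕ) : ℤ) ⊆ S →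
      Ex P2 S (fun F => (s ^ (N F v y (2 * x) + W F v x)) ^ 2) ≤ C := by
  have hok : Ok P2 := okq (q := (1 / 2 : ℝ)) (by norm_num) (by norm_num)
  have hs4 : (1 : ℝ) ≤ s ^ 4 := one_le_pow₀ hs
  obtain ⟨C1, hC1, h1⟩ := ha (s ^ 4) hs4 (2 * L)
  obtain ⟨C2, hC2, h2⟩ := h.wmom (s ^ 4) hs4
  refine ⟨C1 + C2, by positivity, fun v y x S hy hyx hxL hS => ?_⟩
  have e1 := h1 v y (2 * x) S hy (by omega) (by nlinarith) hS
  have e2 := h2 v x S (by omega) (by exact_mod_cast hS)
  have e3 : Ex P2 S (fun F => (s ^ (N F v y (2 * x) + W F v x)) ^ 2) ≤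
      Ex P2 S (fun F => (1 / 2 * (s ^ 4) ^ N F v y (2 * x) + 1 / 2 * (s ^ 4) ^ W F v x)) := by
    refine Ex_mono hok fun F _ => ?_
    have := amgm ((s ^ N F v y (2 * x)) ^ 2) ((s ^ W F v x) ^ 2)
    calc (s ^ (N F v y (2 * x) + W F v x)) ^ 2
        = (s ^ N F v y (2 * x)) ^ 2 * (s ^ W F v x) ^ 2 := by rw [pow_add]; ring
      _ ≤ _ := this
      _ = _ := by
        simp only [← pow_mul]
        ring_nf
  refine e3.trans ?_
  rw [Ex_add, Ex_mul_left, Ex_mul_left]
  linarith

theorem t_OUTB {N : NT} {W : WT} {K : KT} (h : Sys N W K) (hl : LocG N) (ha : AMom N) :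
    OutB N W := by
  have hok : Ok P2 := okq (q := (1 / 2 : ℝ)) (by norm_num) (by norm_num)
  intro t s L ht hs
  -- enlarge `s` and `L`
  obtain ⟨s', hs', hts, hss⟩ : ∃ s' : ℝ, 1 ≤ s' ∧ t ^ 2 ≤ s' ∧ s ≤ s' :=
    ⟨max s (t ^ 2), le_max_of_le_left hs, le_max_right _ _, le_max_left _ _⟩
  obtain ⟨L', hL4, hLL⟩ : ∃ L' : ℕ, 4 ≤ L' ∧ L ≤ L' := ⟨max L 4, le_max_right _ _, le_max_left _ _⟩
  have ht2 : (1 : ℝ) ≤ t ^ 2 := one_le_pow₀ ht
  obtain ⟨C1, hC1, h1⟩ := mom h ha s' hs' L'
  obtain ⟨C2, hC2, h2⟩ := ha (t ^ 2) ht2 8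
  have ht0 : (0 : ℝ) < t := by linarith
  have hs0 : (0 : ℝ) < s' := by linarith
  have key : ∀ (d : ℕ) (v : Vtx) (y x R : ℕ) (S : Finset Edg), R - x ≤ d → 1 ≤ y → y ≤ x →
      x ≤ L' * y → 2 * x ≤ R → bx v R ⊆ S →
      Ex P2 S (fun F => t ^ N F v x R * s' ^ (N F v y (2 * x) + W F v x)) ≤
        (C1 + C2) * G N t x R := by
    intro d
    induction d with
    | zero =>
      intro v y x R S hd hy hyx hxL hR hS
      omega
    | succ d ih =>
      intro v y x R S hd hy hyx hxL hR hS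
      have hx2 : bx v ((2 * x : ℕ) : ℤ) ⊆ S :=
        (bx_mono v (by exact_mod_cast hR)).trans hS
      have e1 := h1 v y x S hy hyx hxL hx2
      by_cases hR8 : 8 * x ≤ R
      · have e0 := ih v x (4 * x) R S (by omega) (by omega) (by omega)
          (Nat.mul_le_mul_right x hL4) (by omega) hS
        have e2 : Ex P2 S (fun F => t ^ N F v x R * s' ^ (N F v y (2 * x) + W F v x)) ≤
            Ex P2 S (fun F => (1 / 2 * (t ^ N F v (4 * x) R *
              s' ^ (N F v x (2 * (4 * x)) + W F v (4 * x))) +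
              1 / 2 * (t ^ N F v (4 * x) R * (s' ^ (N F v y (2 * x) + W F v x)) ^ 2))) := by
          refine Ex_mono hok fun F _ => ?_
          have j := h.join F v (4 * x) x R (by omega) (by omega) (by omega)
          have a1 : t ^ N F v x R ≤ t ^ N F v (4 * x) R *
              t ^ (N F v x (2 * (4 * x)) + W F v (4 * x)) := by
            rw [← pow_add]
            exact pow_le_pow_right₀ ht (by omega)
          have a2 : (t ^ (N F v x (2 * (4 * x)) + W F v (4 * x))) ^ 2 ≤
              s' ^ (N F v x (2 * (4 * x)) + W F v (4 * x)) := by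
            rw [← pow_mul, mul_comm _ 2, pow_mul]
            exact pow_le_pow_left₀ (by positivity) hts _
          have a3 := amgm (t ^ (N F v x (2 * (4 * x)) + W F v (4 * x)))
            (s' ^ (N F v y (2 * x) + W F v x))
          calc t ^ N F v x R * s' ^ (N F v y (2 * x) + W F v x)
              ≤ t ^ N F v (4 * x) R * t ^ (N F v x (2 * (4 * x)) + W F v (4 * x)) *
                s' ^ (N F v y (2 * x) + W F v x) := by gcongr
            _ = t ^ N F v (4 * x) R * (t ^ (N F v x (2 * (4 * x)) + W F v (4 * x)) *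
                s' ^ (N F v y (2 * x) + W F v x)) := by ring
            _ ≤ t ^ N F v (4 * x) R * (1 / 2 *
                s' ^ (N F v x (2 * (4 * x)) + W F v (4 * x)) +
                1 / 2 * (s' ^ (N F v y (2 * x) + W F v x)) ^ 2) := by
                refine mul_le_mul_of_nonneg_left ?_ (by positivity)
                linarith
            _ = _ := by ring
        refine e2.trans ?_
        rw [Ex_add, Ex_mul_left, Ex_mul_left]
        have e3 : Ex P2 S (fun F => t ^ N F v (4 * x) R *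
            (s' ^ (N F v y (2 * x) + W F v x)) ^ 2) =
            Ex P2 S (fun F => t ^ N F v (4 * x) R) *
            Ex P2 S (fun F => (s' ^ (N F v y (2 * x) + W F v x)) ^ 2) := by
          have d1 : Disjoint (an v (4 * x) R) (bx v ((2 * x : ℕ) : ℤ)) := by
            rw [Finset.disjoint_left]
            intro z hz hz'
            unfold an at hz
            rw [Finset.mem_sdiff] at hz
            exact hz.2 (bx_mono _ (by push_cast; omega) hz')
          refine Ex_mul_indep (p := P2) ((an_sub_bx v (4 * x) R).trans hS) hx2 d1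
            (fun F _ => ?_) (fun F _ => ?_)
          · rw [locN h.geo (by omega) (le_refl _) F]
          · rw [locN h.geo (by omega) (an_sub_bx v y (2 * x)) F,
              locW h (by omega) (an_sub_bx v x (2 * x)) F]
        have e4 : Ex P2 S (fun F => t ^ N F v (4 * x) R) = G N t (4 * x) R :=
          hl t v (4 * x) R S (by omega) hS
        have e5 : G N t (4 * x) R ≤ G N t x R := by
          unfold G
          refine Ex_mono hok fun F _ => ?_
          exact pow_le_pow_right₀ ht (h.geo.mono F _ _ _ _ _ (by omega) le_rfl)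
        have e6 : 0 ≤ G N t (4 * x) R := Ex_nonneg hok fun F _ => by positivity
        rw [e3, e4]
        have e7 : G N t (4 * x) R * Ex P2 S (fun F => (s' ^ (N F v y (2 * x) + W F v x)) ^ 2) ≤
            G N t (4 * x) R * C1 := mul_le_mul_of_nonneg_left e1 e6
        have e8 : G N t (4 * x) R * C2 ≥ 0 := by positivity
        nlinarith
      · have e2 := h2 v x R S (by omega) (by omega) (by omega) hS
        have e3 : Ex P2 S (fun F => t ^ N F v x R * s' ^ (N F v y (2 * x) + W F v x)) ≤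
            Ex P2 S (fun F => (1 / 2 * (t ^ 2) ^ N F v x R +
              1 / 2 * (s' ^ (N F v y (2 * x) + W F v x)) ^ 2)) := by
          refine Ex_mono hok fun F _ => ?_
          have := amgm (t ^ N F v x R) (s' ^ (N F v y (2 * x) + W F v x))
          rwa [← pow_mul, mul_comm (N F v x R) 2, pow_mul] at this
        have e4 : 1 ≤ G N t x R := by
          unfold G
          calc (1 : ℝ) = Ex P2 (bx (0, 0) R) (fun _ => (1 : ℝ)) := (Ex_const _ _ _).symm
            _ ≤ _ := Ex_mono hok fun F _ => one_le_pow₀ ht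
        refine e3.trans ?_
        rw [Ex_add, Ex_mul_left, Ex_mul_left]
        have e5 : (C1 + C2) * 1 ≤ (C1 + C2) * G N t x R :=
          mul_le_mul_of_nonneg_left e4 (by positivity)
        linarith
  refine ⟨C1 + C2, by positivity, fun v y x R S hy hyx hxL hR hS => ?_⟩
  refine le_trans (Ex_mono hok fun F _ => ?_)
    (key (R - x) v y x R S le_rfl hy hyx (hxL.trans (Nat.mul_le_mul_right y hLL)) hR hS)
  have : s ^ (N F v y (2 * x) + W F v x) ≤ s' ^ (N F v y (2 * x) + W F v x) :=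
    pow_le_pow_left₀ (by linarith) hss _
  exact mul_le_mul_of_nonneg_left this (by positivity)

end Pool.Agent.W933.NC
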